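import Mathlib
import Pool.Agent.Helper9.NS
import Pool.Agent.Helper70.VP.Pencil

/-!
# Pairing of the branch points of a balanced function
-/

set_option autoImplicit false

namespace BQ

open VC VQ VP Function IntermediateField

universe u

namespace BP

lemma two_torsion {m : ℕ} (hm : 0 < m) {r t : ZMod m} (hr : r ≠ 0) (ht : t ≠ 0) (hr2 : -r = r)
    (ht2 : -t = t) : t = r := by
  haveI : NeZero m := ⟨hm.ne'⟩
  have key : ∀ x : ZMod m, x ≠ 0 → -x = x → 2 * x.val = m := by
    intro x hx hx2
    have h1 : ((2 * x.val : ℕ) : ZMod m) = 0 := by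
      push_cast
      rw [ZMod.natCast_zmod_val]
      have : x + x = 0 := by nth_rewrite 1 [← hx2]; ring
      rw [two_mul, this]
    rw [ZMod.natCast_eq_zero_iff] at h1
    obtain ⟨c, hc⟩ := h1
    have h2 : x.val < m := x.val_lt
    have h3 : x.val ≠ 0 := fun h => hx ((ZMod.val_eq_zero x).1 h)
    have hc1 : c = 1 := by
      have : c ≠ 0 := by rintro rfl; omega
      have : c < 2 := by
        by_contra h4
        have : m * 2 ≤ m * c := Nat.mul_le_mul_left m (by omega)
        omega
      omega
    rw [hc1] at hc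
    omega
  apply ZMod.val_injective m
  have h1 := key r hr hr2
  have h2 := key t ht ht2
  omega

open Classical in
theorem pairing {α : Type*} {m : ℕ} (hm : 0 < m) (o : α → ZMod m) :
    ∀ (N : ℕ) (R : Finset α), R.card = N → (∀ x ∈ R, o x ≠ 0) →
      (∀ r : ZMod m, r ≠ 0 → (R.filter (fun x => o x = r)).card =
        (R.filter (fun x => o x = -r)).card) →
      ∑ x ∈ R, o x = 0 →
      ∃ (n : ℕ) (p q : Fin n → α), R.card = 2 * n ∧ (∀ i, p i ∈ R) ∧
        (∀ i, o (q i) = - o (p i)) ∧
        ∀ x, ∑ i, ((if p i = x then 1 else 0) + (if q i = x then 1 else 0)) =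
          (if x ∈ R then 1 else 0 : ℕ) := by
  haveI : NeZero m := ⟨hm.ne'⟩
  intro N
  induction N using Nat.strong_induction_on with
  | _ N ih =>
  intro R hR h0 hbal hsum
  rcases R.eq_empty_or_nonempty with rfl | ⟨x, hx⟩
  · exact ⟨0, Fin.elim0, Fin.elim0, by simp, fun i => i.elim0, fun i => i.elim0, by simp⟩
  have hy : ∃ y ∈ R, y ≠ x ∧ o y = - o x := by
    by_contra hno
    push Not at hno
    by_cases h2 : - o x = o x
    · -- the only element with this value
      have h3 : ∑ y ∈ R, o y = ∑ t : ZMod m, ((R.filter (fun y => o y = t)).card) • t := by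
        rw [← Finset.sum_fiberwise R o o]
        apply Finset.sum_congr rfl
        intro t _
        rw [Finset.sum_congr rfl (g := fun _ => t) (fun y hy => (Finset.mem_filter.1 hy).2),
          Finset.sum_const]
      have h4 : R.filter (fun y => o y = o x) = {x} := by
        ext y
        simp only [Finset.mem_filter, Finset.mem_singleton]
        constructor
        · rintro ⟨h5, h6⟩
          by_contra h7
          exact hno y h5 h7 (h6.trans h2.symm)
        · rintro rfl
          exact ⟨hx, rfl⟩
      have h5 : ∑ t ∈ Finset.univ.erase (o x), ((R.filter (fun y => o y = t)).card) • t = 0 := by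
        apply Finset.sum_involution (fun t _ => - t)
        · intro t ht
          by_cases ht0 : t = 0
          · simp [ht0]
          · rw [← hbal t ht0, smul_neg, add_neg_cancel]
        · intro t ht hne h6
          have ht0 : t ≠ 0 := by rintro rfl; simp at hne
          exact (Finset.ne_of_mem_erase ht) (two_torsion hm (h0 x hx) ht0 h2 h6)
        · intro t ht
          exact neg_neg t
        · intro t ht
          refine Finset.mem_erase.2 ⟨?_, Finset.mem_univ _⟩
          intro h6
          apply Finset.ne_of_mem_erase ht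
          rw [← neg_neg t, h6, h2]
      rw [h3, ← Finset.add_sum_erase _ _ (Finset.mem_univ (o x)), h5, h4] at hsum
      simp at hsum
      exact h0 x hx hsum
    · have h3 : 0 < (R.filter (fun y => o y = - o x)).card := by
        rw [← hbal _ (h0 x hx)]
        exact Finset.card_pos.2 ⟨x, Finset.mem_filter.2 ⟨hx, rfl⟩⟩
      obtain ⟨y, hy⟩ := Finset.card_pos.1 h3
      rw [Finset.mem_filter] at hy
      exact hno y hy.1 (by rintro rfl; exact h2 hy.2.symm) hy.2
  obtain ⟨y, hyR, hyx, hoy⟩ := hy
  set R' := (R.erase x).erase y with hR'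
  have hyR' : y ∈ R.erase x := Finset.mem_erase.2 ⟨hyx, hyR⟩
  have hc1 : R'.card + 1 = (R.erase x).card := Finset.card_erase_add_one hyR'
  have hc2 : (R.erase x).card + 1 = R.card := Finset.card_erase_add_one hx
  have hsub : ∀ z, z ∈ R' ↔ z ≠ y ∧ z ≠ x ∧ z ∈ R := by
    intro z; rw [hR', Finset.mem_erase, Finset.mem_erase]
  have hcnt : ∀ r : ZMod m, (R.filter (fun z => o z = r)).card =
      (R'.filter (fun z => o z = r)).card + ((if o x = r then 1 else 0) +
        (if o y = r then 1 else 0)) := by
    intro r
    have h1 : ∀ S : Finset α, (S.filter (fun z => o z = r)).card =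
        ∑ z ∈ S, if o z = r then 1 else 0 := fun S => by
      rw [Finset.card_filter]
    rw [h1, h1, ← Finset.add_sum_erase R _ hx, ← Finset.add_sum_erase (R.erase x) _ hyR']
    ring
  obtain ⟨n, p, q, hn, hp, hq, hpq⟩ := ih R'.card (by omega) R' rfl
    (fun z hz => h0 z ((hsub z).1 hz).2.2)
    (by
      intro r hr
      have h1 := hcnt r
      have h2 := hcnt (-r)
      have h3 := hbal r hr
      have h4 : (o x = r ↔ o y = -r) := by rw [hoy, neg_inj]
      have h5 : (o y = r ↔ o x = -r) := by rw [hoy, neg_eq_iff_eq_neg]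
      have h6 : (if o x = r then 1 else 0 : ℕ) = if o y = -r then 1 else 0 := by
        simp only [h4]
      have h7 : (if o y = r then 1 else 0 : ℕ) = if o x = -r then 1 else 0 := by
        simp only [h5]
      omega)
    (by
      rw [← Finset.add_sum_erase R _ hx, ← Finset.add_sum_erase (R.erase x) _ hyR', hoy,
        ← add_assoc, add_neg_cancel, zero_add] at hsum
      exact hsum)
  refine ⟨n + 1, Fin.cons x p, Fin.cons y q, by omega, ?_, ?_, ?_⟩
  · intro i
    refine Fin.cases ?_ ?_ i
    · simpa using hx
    · intro j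
      simpa using ((hsub _).1 (hp j)).2.2
  · intro i
    refine Fin.cases ?_ ?_ i
    · simpa using hoy
    · intro j
      simpa using hq j
  · intro z
    rw [Fin.sum_univ_succ]
    simp only [Fin.cons_zero, Fin.cons_succ]
    rw [hpq z]
    simp only [hsub]
    by_cases h1 : z = x
    · subst h1
      simp [hx, hyx]
    · by_cases h2 : z = y
      · subst h2
        simp [hyR, hyx, Ne.symm hyx]
      · simp [h1, h2, Ne.symm h1, Ne.symm h2]

end BP

section P
variable {k F : Type u} [Field k] [IsAlgClosed k] [CharZero k] [Field F] [Algebra k F]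

theorem exists_pairs (hF : IsFunctionField k F) {f : F} (hf : f ≠ 0) {m : ℕ} (hm : 0 < m) {s : ℕ}
    (hs : 0 < s)
    (hcard : Nat.card {P : Place k F // ((ord P.ring f : ℤ) : ZMod m) ≠ 0} = 2 * s)
    (hbal : ∀ r : ZMod m, r ≠ 0 → Nat.card {P : Place k F // ((ord P.ring f : ℤ) : ZMod m) = r} =
      Nat.card {P : Place k F // ((ord P.ring f : ℤ) : ZMod m) = - r}) :
    ∃ p q : Fin s → Place k F, (∀ i, ((ord (p i).ring f : ℤ) : ZMod m) ≠ 0) ∧
      (∀ i, ((ord (q i).ring f : ℤ) : ZMod m) = - ((ord (p i).ring f : ℤ) : ZMod m)) ∧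
      ∀ P : Place k F, ((ord P.ring f : ℤ) : ZMod m) = ∑ i,
        ((open Classical in if p i = P then ((ord (p i).ring f : ℤ) : ZMod m) else 0) -
          (open Classical in if q i = P then ((ord (p i).ring f : ℤ) : ZMod m) else 0)) := by
  classical
  set o : Place k F → ZMod m := fun P => ((ord P.ring f : ℤ) : ZMod m) with ho
  set R : Finset (Place k F) := (finite_support_ord hF hf).toFinset.filter (fun P => o P ≠ 0)
    with hR
  have hmem : ∀ P, P ∈ R ↔ o P ≠ 0 := by
    intro P
    rw [hR, Finset.mem_filter, Set.Finite.mem_toFinset]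
    constructor
    · exact fun h => h.2
    · intro h
      refine ⟨?_, h⟩
      change ord P.ring f ≠ 0
      intro h1
      apply h
      rw [ho]
      simp [h1]
  have hnat : ∀ (Q : Place k F → Prop), (∀ P, Q P → o P ≠ 0) →
      Nat.card {P : Place k F // Q P} = (R.filter Q).card := by
    intro Q hQ
    rw [← Nat.card_eq_finsetCard]
    apply Nat.card_congr
    refine (Equiv.subtypeEquivRight fun P => ?_)
    rw [Finset.mem_filter, hmem]
    exact ⟨fun h => ⟨hQ P h, h⟩, fun h => h.2⟩
  have hbal' : ∀ r : ZMod m, r ≠ 0 → (R.filter (fun P => o P = r)).card =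
      (R.filter (fun P => o P = -r)).card := by
    intro r hr
    have h3 := ((hnat (fun P => o P = r) (fun P h => by rw [h]; exact hr)).symm.trans
      (hbal r hr)).trans
      (hnat (fun P => o P = -r) (fun P h => by rw [h]; exact neg_ne_zero.2 hr))
    convert h3
  have hsum : ∑ P ∈ R, o P = 0 := by
    have h1 := congrArg (fun z : ℤ => (z : ZMod m)) (degree_zero hF hf)
    simp only [Int.cast_sum, Int.cast_zero] at h1
    rw [← h1, hR, Finset.sum_filter]
    apply Finset.sum_congr rfl
    intro P _
    by_cases h : o P = 0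
    · rw [if_neg (not_not.2 h)]
      exact h.symm
    · rw [if_pos h]
  obtain ⟨n, p, q, hn, hp, hq, hpq⟩ := BP.pairing hm o R.card R rfl
    (fun P h => (hmem P).1 h) hbal' hsum
  have hRs : R.card = 2 * s := by
    rw [← hcard]
    have h1 := hnat (fun P => o P ≠ 0) (fun P h => h)
    rw [h1]
    congr 1
    ext P
    simp [hmem]
  obtain rfl : n = s := by omega
  refine ⟨p, q, fun i => (hmem _).1 (hp i), hq, fun P => ?_⟩
  have h2 : ∀ i, ((if p i = P then ((ord (p i).ring f : ℤ) : ZMod m) else 0) -
      (if q i = P then ((ord (p i).ring f : ℤ) : ZMod m) else 0)) =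
      (((if p i = P then 1 else 0) + (if q i = P then 1 else 0) : ℕ) : ZMod m) * o P := by
    intro i
    push_cast
    rw [add_mul, sub_eq_add_neg]
    congr 1
    · by_cases h3 : p i = P
      · rw [if_pos h3, if_pos h3, one_mul, h3]
      · rw [if_neg h3, if_neg h3, zero_mul]
    · by_cases h3 : q i = P
      · rw [if_pos h3, if_pos h3, one_mul, ← h3]
        exact (hq i).symm
      · rw [if_neg h3, if_neg h3, zero_mul, neg_zero]
  rw [Finset.sum_congr rfl (fun i _ => h2 i), ← Finset.sum_mul, ← Nat.cast_sum, hpq P]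
  by_cases h : P ∈ R
  · rw [if_pos h, Nat.cast_one, one_mul]
  · rw [if_neg h, Nat.cast_zero, zero_mul]
    rw [hmem, not_not] at h
    exact h
end P

end BQ
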